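import Pool.Agent.Work.MP_e487d8_al.Bd.B18
import Pool.Agent.Work.MP_e487d8_al.Bd.B14
import Pool.Agent.Work.MP_e487d8_al.Bd.B27
import Pool.Agent.Work.MP_e487d8_al.Bd.B29
import Pool.Agent.Work.MP_e487d8_al.Bd.B28

/-! MP_e487d8_al, module side: all statements of the MO block. -/

set_option autoImplicit false

namespace Pool.Agent.KLS

variable {K I : Type} [Field K] [Fintype I] [DecidableEq I]

namespace Mo

variable (D : Datum K I)

theorem rho : StRho D := I_RHO D
theorem x0 : StX0 D := I_X0 D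
theorem t0 : StT0 D := I_T0 D
theorem tk : StTk D := I_TK D
theorem tpTr : StTpTr D := I_TPTR D (rho D) (x0 D) (t0 D)
theorem tpShn : StTpShn D := I_TPSHN D (rho D)
theorem tpNd : StTpNd D := I_TPND D (rho D) (tk D)
theorem duConv : StDuConv D := I_DUCONV D (tpTr D) (tpShn D) (tpNd D)
theorem duChr : StDuChr D := I_DUCHR D
theorem duSmp : StDuSmp D := I_DUSMP D (duChr D)
theorem duIso : StDuIso D := I_DUISO D (duChr D) (duSmp D)
/-- `Z` is a quotient of `X ∘ Y` iff it is a submodule of `Y ∘ X` -/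
theorem swap : StSwap D := I_SWAP D (duConv D) (duIso D)
theorem msub : StMsub D := I_MSUB D
theorem msq : StMsq D := I_MSQ D (msub D)
theorem ssub : StSsub D := I_SSUB D
theorem as : StAs D := I_AS D
theorem asm : StAsm D := I_ASM D
theorem s2 : StS2 D := I_S2 D (swap D) (msub D) (msq D)
theorem lphd : StLphd D := I_LPHD D
theorem icc : StIcc D := I_ICC D
theorem icm : StIcm D := I_ICM D
theorem lpic : StLpic D := I_LPIC D (icm D)
theorem hdc : StHdc D := I_HDC D (lphd D) (lpic D)
theorem k0n : StK0n D := I_K0N D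
theorem inj : StInj D := I_INJ D
theorem k1c : StK1c D := I_K1C D (inj D)
theorem k1p : StK1p D := I_K1P D (k0n D)
theorem k1s : StK1s D := I_K1S D (inj D)
theorem k1a : StK1a D := I_K1A D (k1p D) (k1s D)
theorem k1b : StK1b D := I_K1B D
theorem k1d : StK1d D := I_K1D D (k1a D) (k1b D) (k1c D)
theorem k1e : StK1e D := I_K1E D (swap D) (k0n D) (k1d D)
theorem k1 : StK1 D := I_K1 D (swap D) (k1e D)
theorem k1m : StK1m D := I_K1M D (k1 D)
theorem k4a : StK4a D := I_K4A D (swap D) (k0n D)
theorem k4 : StK4 D := I_K4 D (k1e D) (k4a D)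
theorem k4m : StK4m D := I_K4M D (k4 D)
theorem ds : StDs D := I_DS D (swap D) (ssub D) (msub D) (msq D)
theorem lbf : StLbf D := I_LBF D (swap D) (lpic D) (msub D) (msq D) (lphd D)

end Mo

end Pool.Agent.KLS
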